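import Pool.Agent.H9.QV3

namespace Pool.Agent.Results.MP_7a870e_al.Universal

open Pool.Agent.H9.QV

theorem result : ∃ (τ : FirstOrder.Language.{0, 0}) (K : Set (Sys τ)), Finite τ.Symbols ∧ IsQV K ∧
    ∀ (σ : FirstOrder.Language.{0, 0}), Finite σ.Symbols → ∀ M : Set (Sys σ), IsQV M →
      (∀ a b : Lq M, (∃ c, IsLUB {a, b} c) ∧ ∃ c, IsGLB {a, b} c) ∧
      ∃ Φ : Lq M → Lq K, Function.Injective Φ ∧
        (∀ a b c, IsLUB {a, b} c → IsLUB {Φ a, Φ b} (Φ c)) ∧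
        (∀ a b c, IsGLB {a, b} c → IsGLB {Φ a, Φ b} (Φ c)) := by
  refine ⟨tau, Set.univ, tau_finite, ⟨∅, by simp⟩, fun σ hσ M hM => ?_⟩
  obtain ⟨D⟩ := exData σ hσ
  let J : Lq M → Lq M → Lq M := fun a b =>
    ⟨gen (a.1 ∪ b.1), gen_qv _, gen_le hM (Set.union_subset a.2.2 b.2.2)⟩
  let I : Lq M → Lq M → Lq M := fun a b =>
    ⟨a.1 ∩ b.1, a.2.1.inter b.2.1, Set.inter_subset_left.trans a.2.2⟩
  have hJ : ∀ a b, IsLUB {a, b} (J a b) := by
    intro a b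
    refine ⟨?_, fun c hc => gen_le c.2.1 (Set.union_subset (hc (Or.inl rfl)) (hc (Or.inr rfl)))⟩
    rintro _ (rfl | rfl)
    · exact Set.subset_union_left.trans (sub_gen _)
    · exact Set.subset_union_right.trans (sub_gen _)
  have hI : ∀ a b, IsGLB {a, b} (I a b) := by
    intro a b
    refine ⟨?_, fun c hc => Set.subset_inter (hc (Or.inl rfl)) (hc (Or.inr rfl))⟩
    rintro _ (rfl | rfl)
    · exact Set.inter_subset_left
    · exact Set.inter_subset_right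
  let Φ : Lq M → Lq (Set.univ : Set (Sys tau)) := fun a =>
    ⟨gen (F D '' a.1), gen_qv _, Set.subset_univ _⟩
  have mono : ∀ a b, a ≤ b → Φ a ≤ Φ b := fun a b h => gen_mono (Set.image_mono h)
  have refl : ∀ a b, Φ a ≤ Φ b → a ≤ b := fun a b h A hA =>
    F_reflect D b.2.1 (h (sub_gen _ ⟨A, hA, rfl⟩))
  refine ⟨fun a b => ⟨⟨_, hJ a b⟩, _, hI a b⟩, Φ,
    fun a b h => le_antisymm (refl a b h.le) (refl b a h.ge), fun a b c h => ⟨?_, ?_⟩,
    fun a b c h => ⟨?_, ?_⟩⟩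
  · rintro _ (rfl | rfl)
    · exact mono _ _ (h.1 (Or.inl rfl))
    · exact mono _ _ (h.1 (Or.inr rfl))
  · intro Q hQ
    rw [h.unique (hJ a b)]
    refine gen_le Q.2.1 ?_
    rintro _ ⟨A, hA, rfl⟩
    refine gen_le Q.2.1 ?_ (F_gen D (Or.inl (one_mem a.2.1)) hA)
    rw [Set.image_union]
    exact Set.union_subset ((sub_gen _).trans (hQ (Or.inl rfl))) ((sub_gen _).trans (hQ (Or.inr rfl)))
  · rintro _ (rfl | rfl)
    · exact mono _ _ (h.1 (Or.inl rfl))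
    · exact mono _ _ (h.1 (Or.inr rfl))
  · intro Q hQ
    rw [h.unique (hI a b)]
    exact (Set.subset_inter (hQ (Or.inl rfl)) (hQ (Or.inr rfl))).trans (F_meet D a.2.1 b.2.1)

end Pool.Agent.Results.MP_7a870e_al.Universal
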